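import Pool.Agent.Helper95.FC.Fin

/-!
MP_2e7a1b_nt.  If the least prime factors of `d * 2 ^ k + 1` are at most `A (log K) ^ 2` for `K`
consecutive exponents `k`, where `K ≥ K₀(A)`, then they are at most `A (log K) ^ 2` for all `k ≥ 1`,
and the sequence is obtained from covering congruences.  So for a counterexample `d` to Q1 the
maximum of the least prime factors over any `K` consecutive exponents exceeds `A (log K) ^ 2`, for
every `A` and every `K ≥ K₀(A)`, with `K₀(A)` independent of `d`.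
-/

namespace Pool.Agent.Results.MP_2e7a1b_nt.FiniteCheck

/-- The sequence `d * 2 ^ k + 1`, `k ≥ 1`, is obtained from covering congruences: every term has a
divisor in one finite set of primes. -/
def FromCovering (d : ℕ) : Prop :=
  ∃ P : Finset ℕ, (∀ p ∈ P, p.Prime) ∧ ∀ k : ℕ, 1 ≤ k → ∃ p ∈ P, p ∣ d * 2 ^ k + 1

theorem result : ∀ A : ℝ, 0 < A → ∃ K₀ : ℕ, ∀ d : ℕ, Odd d → ∀ K : ℕ, K₀ ≤ K → ∀ a : ℕ,
    ((∀ k, a < k → k ≤ a + K → ((d * 2 ^ k + 1).minFac : ℝ) ≤ A * Real.log K ^ 2) →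
      (∀ k, 1 ≤ k → ((d * 2 ^ k + 1).minFac : ℝ) ≤ A * Real.log K ^ 2) ∧ FromCovering d) ∧
    (¬ FromCovering d →
      ∃ k, a < k ∧ k ≤ a + K ∧ A * Real.log K ^ 2 < ((d * 2 ^ k + 1).minFac : ℝ)) := by
  intro A hA
  obtain ⟨K₀, hK₀⟩ := Pool.Agent.Helper95.FC.window A hA
  refine ⟨K₀, fun d hd K hK a => ?_⟩
  have main : (∀ k, a < k → k ≤ a + K →
      ((d * 2 ^ k + 1).minFac : ℝ) ≤ A * Real.log K ^ 2) →
      (∀ k, 1 ≤ k → ((d * 2 ^ k + 1).minFac : ℝ) ≤ A * Real.log K ^ 2) ∧ FromCovering d := by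
    intro h
    have h1 := hK₀ d hd.pos K hK a h
    refine ⟨fun k _ => h1 k, ?_⟩
    refine ⟨(Finset.range (⌊A * Real.log K ^ 2⌋₊ + 1)).filter Nat.Prime, ?_, ?_⟩
    · intro p hp
      exact (Finset.mem_filter.1 hp).2
    · intro k _
      refine ⟨(d * 2 ^ k + 1).minFac, ?_, Nat.minFac_dvd _⟩
      rw [Finset.mem_filter, Finset.mem_range]
      have h2 : d * 2 ^ k + 1 ≠ 1 := by
        have : 0 < d * 2 ^ k := Nat.mul_pos hd.pos (by positivity)
        omega
      exact ⟨Nat.lt_succ_of_le (Nat.le_floor (h1 k)), Nat.minFac_prime h2⟩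
  refine ⟨main, fun hn => ?_⟩
  by_contra hcon
  push Not at hcon
  exact hn (main hcon).2

end Pool.Agent.Results.MP_2e7a1b_nt.FiniteCheck
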