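import Pool.Agent.Helper56.CV.F1

/-!
MP_2e7a1b_nt.  For whole residue classes of prime-free `d = t ^ 4`, every covering set of primes
needs arbitrarily many primes with one and the same order of `2`, and their number grows with the
order.
-/

set_option autoImplicit false

namespace Pool.Agent.Results.MP_2e7a1b_nt.HighMultiplicity

open Pool.Agent.H56.CV

/-- `P` is a finite covering set of primes for the sequence `d * 2 ^ k + 1`, `k ≥ 1`. -/
def IsCoveringSet (d : ℕ) (P : Finset ℕ) : Prop :=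
  (∀ p ∈ P, p.Prime) ∧ ∀ k : ℕ, 1 ≤ k → ∃ p ∈ P, p ∣ d * 2 ^ k + 1

/-- For all `δ > 0`, `C` and `N` there is a residue class of odd numbers `t` such that
`t ^ 4 * 2 ^ k + 1` is composite for all `k ≥ 1`, and every finite covering set of primes of such a
sequence contains, for some `n ≥ N` with largest prime factor `q`, more than
`q ^ (1 - δ) * exp (C √(log n))` primes modulo which `2` has the order `n`. -/
theorem result : ∀ (δ C : ℝ) (N : ℕ), 0 < δ → ∃ a M : ℕ, 0 < M ∧ ∀ t : ℕ, t ≡ a [MOD M] →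
    Odd t ∧ (∀ k : ℕ, 1 ≤ k → ¬ (t ^ 4 * 2 ^ k + 1).Prime) ∧
    ∀ P : Finset ℕ, IsCoveringSet (t ^ 4) P → ∃ n : ℕ, N ≤ n ∧
      ((n.primeFactors.sup id : ℕ) : ℝ) ^ (1 - δ) * Real.exp (C * √(Real.log n)) <
        ((P.filter fun p => orderOf (2 : ZMod p) = n).card : ℝ) := by
  intro δ C N hδ
  have hδ0 : 0 < min δ (1 / 2) := lt_min hδ (by norm_num)
  have hδ1 : min δ (1 / 2) < 1 := lt_of_le_of_lt (min_le_right _ _) (by norm_num)
  obtain ⟨a, M, hM, h⟩ := deterministic (max C 0) (min δ (1 / 2)) (le_max_right _ _) hδ0 hδ1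
    (max N 2)
  refine ⟨a, M, hM, fun t ht => ?_⟩
  obtain ⟨h1, h2, h3⟩ := h t ht
  refine ⟨h1, h2, fun P hP => ?_⟩
  have h4 := h3 P hP
  have h5 : (0 : ℝ) < hiMass (max C 0) (min δ (1 / 2)) (max N 2) P := by linarith
  unfold hiMass at h5
  obtain ⟨p, hp, -⟩ := Finset.exists_ne_zero_of_sum_ne_zero h5.ne'
  rw [Finset.mem_filter] at hp
  obtain ⟨-, hpN, hpS⟩ := hp
  refine ⟨ord2 p, (le_max_left _ _).trans hpN, lt_of_le_of_lt ?_ hpS⟩
  have hn2 : 2 ≤ ord2 p := (le_max_right _ _).trans hpN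
  have hq : 1 ≤ gpf (ord2 p) := by
    obtain ⟨r, hr⟩ := Nat.nonempty_primeFactors.2 hn2
    have h6 : id r ≤ (ord2 p).primeFactors.sup id := Finset.le_sup hr
    have h7 := (Nat.prime_of_mem_primeFactors hr).one_le
    exact h7.trans h6
  have hq' : (1 : ℝ) ≤ (gpf (ord2 p) : ℝ) := by exact_mod_cast hq
  unfold S
  refine mul_le_mul ?_ ?_ (Real.exp_pos _).le (by positivity)
  · show ((gpf (ord2 p) : ℕ) : ℝ) ^ (1 - δ) ≤ _
    exact Real.rpow_le_rpow_of_exponent_le hq' (by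
      have := min_le_left δ (1 / 2)
      linarith)
  · refine Real.exp_le_exp.2 (mul_le_mul_of_nonneg_right (le_max_left _ _) (Real.sqrt_nonneg _))

end Pool.Agent.Results.MP_2e7a1b_nt.HighMultiplicity
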