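import Pool.Agent.Helper56.CV.G2

/-!
MP_2e7a1b_nt.  Most prime-free `d = t ^ 4` of a residue class have no covering set of small primes
and none with small orders.
-/

set_option autoImplicit false

namespace Pool.Agent.Results.MP_2e7a1b_nt.LargePrimesNeeded

open Pool.Agent.H56.CV

/-- `P` is a finite covering set of primes for the sequence `d * 2 ^ k + 1`, `k ≥ 1`. -/
def IsCoveringSet (d : ℕ) (P : Finset ℕ) : Prop :=
  (∀ p ∈ P, p.Prime) ∧ ∀ k : ℕ, 1 ≤ k → ∃ p ∈ P, p ∣ d * 2 ^ k + 1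

open Classical in
/-- For `c < 1/4` and `ε > 0` there is a residue class modulo `M` of odd numbers `t` such that
`t ^ 4 * 2 ^ k + 1` is composite for all `k ≥ 1`, but for all but `ε X / M` of the `t < X` in this
class every finite covering set of primes contains a prime `p > X ^ (2 c)` modulo which the order
of `2` is at least `X ^ c`. -/
theorem result : ∀ c ε : ℝ, 0 < c → c < 1 / 4 → 0 < ε → ∃ a M : ℕ, 0 < M ∧
    (∀ t : ℕ, t ≡ a [MOD M] → Odd t ∧ ∀ k : ℕ, 1 ≤ k → ¬ (t ^ 4 * 2 ^ k + 1).Prime) ∧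
    ∃ X0 : ℕ, ∀ X : ℕ, X0 ≤ X →
      (((Finset.range X).filter fun t => t ≡ a [MOD M] ∧ ∃ P : Finset ℕ, IsCoveringSet (t ^ 4) P ∧
        ∀ p ∈ P, (p : ℝ) ≤ (X : ℝ) ^ (2 * c) ∨
          (orderOf (2 : ZMod p) : ℝ) < (X : ℝ) ^ c).card : ℝ) ≤ ε * (X / M) := by
  intro c ε hc hc4 hε
  obtain ⟨a, M, hM, h1, X0, h2⟩ := density2 0 (1 / 2) c (1 / 8) le_rfl (by norm_num) (by norm_num)
    hc hc4 (by norm_num) ε hε
  refine ⟨a, M, hM, h1, X0, fun X hX => le_trans ?_ (h2 X hX)⟩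
  exact_mod_cast Finset.card_le_card fun t ht => by
    rw [Finset.mem_filter] at ht ⊢
    obtain ⟨h3, h4, P, hP, h5⟩ := ht
    refine ⟨h3, h4, P, hP, ?_⟩
    have h6 : hiMass2 0 (1 / 2) ((X : ℝ) ^ (2 * c)) ((X : ℝ) ^ c) P = 0 := by
      unfold hiMass2
      rw [Finset.filter_false_of_mem, Finset.sum_empty]
      rintro p hp ⟨h7, h8, -⟩
      rcases h5 p hp with h9 | h9
      · exact absurd h7 (not_lt.2 h9)
      · exact absurd h8 (not_le.2 h9)
    rw [h6]
    norm_num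

end Pool.Agent.Results.MP_2e7a1b_nt.LargePrimesNeeded
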